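import Pool.Agent.N822.OG.Stm

/-! # OG/LB: more than half of the orientations of `Gst n` contain no copy of `Dv` -/

namespace Pool.Agent.N556.OG

open Pool.Agent.N822.OG SimpleGraph

/-- The vertex with residue `r`, lower or upper. -/
def v6 (r : Fin 3) (b : Bool) : Fin 6 := ⟨r.val + (if b then 3 else 0), by
  have := r.isLt; split <;> omega⟩

abbrev Ix : Type := Bool × (Fin 3 × Fin 3 × Fin 3) × (Bool × Bool × Bool)

/-- The arcs (between the vertices `< 6`) for an index. -/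
def P0 (i : Ix) : Finset (Fin 6 × Fin 6) :=
  let x := v6 i.2.1.1 i.2.2.1
  let x' := v6 i.2.1.1 (!i.2.2.1)
  let y := v6 i.2.1.2.1 i.2.2.2.1
  let y' := v6 i.2.1.2.1 (!i.2.2.2.1)
  let z := v6 i.2.1.2.2 i.2.2.2.2
  let z' := v6 i.2.1.2.2 (!i.2.2.2.2)
  match i.1 with
  | true => {(y', x), (x', y'), (y, y'), (y', z), (x, x'), (z, x), (z, x'), (z, y), (z', x'),
      (z', y), (z, z')}
  | false => {(y', x), (y, y'), (x', y'), (y', z), (x, x'), (z, x), (z, y), (z, x'), (z', y),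
      (z', x'), (z, z')}

def idx : Finset Ix :=
  Finset.univ.filter fun i => i.2.1.1 ≠ i.2.1.2.1 ∧ i.2.1.1 ≠ i.2.1.2.2 ∧ i.2.1.2.1 ≠ i.2.1.2.2

theorem idx_card : idx.card = 96 := by decide +kernel

theorem P0_ok : ∀ i ∈ idx, (P0 i).card = 11 ∧ (∀ e ∈ P0 i, e.1 ≠ e.2 ∧ (e.2, e.1) ∉ P0 i) := by
  decide +kernel

theorem dv_asymm : ∀ i j : Fin 9, Dv i j → ¬ Dv j i := by decide +kernel

/-- The embedding of `Fin 6`. -/
def w6 {n : ℕ} (hn : 6 ≤ n) (k : Fin 6) : Fin n := ⟨k.val, by have := k.isLt; omega⟩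

theorem w6_inj {n : ℕ} (hn : 6 ≤ n) : Function.Injective (w6 hn) := by
  intro a b h
  have : (w6 hn a).val = (w6 hn b).val := by rw [h]
  exact Fin.ext this

theorem adj_w6 {n : ℕ} (hn : 6 ≤ n) {a b : Fin 6} (h : a ≠ b) :
    (Gst n).Adj (w6 hn a) (w6 hn b) := by
  by_cases h1 : a.val % 3 = b.val % 3
  · exact Or.inr ⟨h1, fun h' => h (w6_inj hn h'), a.isLt, b.isLt⟩
  · exact Or.inl h1

/-- The arcs in `Fin n`. -/
def PP {n : ℕ} (hn : 6 ≤ n) (i : Ix) : Finset (Fin n × Fin n) :=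
  (P0 i).map ⟨fun e => (w6 hn e.1, w6 hn e.2), by
    rintro ⟨a, b⟩ ⟨c, d⟩ h
    simp only [Prod.mk.injEq] at h
    exact Prod.ext (w6_inj hn h.1) (w6_inj hn h.2)⟩

theorem mem_PP {n : ℕ} (hn : 6 ≤ n) (i : Ix) (e : Fin n × Fin n) :
    e ∈ PP hn i ↔ ∃ p ∈ P0 i, w6 hn p.1 = e.1 ∧ w6 hn p.2 = e.2 := by
  unfold PP
  rw [Finset.mem_map]
  constructor
  · rintro ⟨p, hp, rfl⟩
    exact ⟨p, hp, rfl, rfl⟩
  · rintro ⟨p, hp, h1, h2⟩
    exact ⟨p, hp, Prod.ext h1 h2⟩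

theorem PP_card {n : ℕ} (hn : 6 ≤ n) {i : Ix} (hi : i ∈ idx) : (PP hn i).card = 11 := by
  unfold PP
  rw [Finset.card_map]
  exact (P0_ok i hi).1

theorem PP_adj {n : ℕ} (hn : 6 ≤ n) {i : Ix} (hi : i ∈ idx) :
    ∀ e ∈ PP hn i, (Gst n).Adj e.1 e.2 := by
  intro e he
  obtain ⟨p, hp, h1, h2⟩ := (mem_PP hn i e).1 he
  rw [← h1, ← h2]
  exact adj_w6 hn ((P0_ok i hi).2 p hp).1

theorem PP_asymm {n : ℕ} (hn : 6 ≤ n) {i : Ix} (hi : i ∈ idx) :
    ∀ e ∈ PP hn i, (e.2, e.1) ∉ PP hn i := by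
  intro e he he'
  obtain ⟨p, hp, h1, h2⟩ := (mem_PP hn i e).1 he
  obtain ⟨p', hp', h1', h2'⟩ := (mem_PP hn i _).1 he'
  simp only at h1' h2'
  have e1 : p'.1 = p.2 := w6_inj hn (h1'.trans h2.symm)
  have e2 : p'.2 = p.1 := w6_inj hn (h2'.trans h1.symm)
  apply ((P0_ok i hi).2 p hp).2
  rw [← e1, ← e2]
  exact hp'

theorem two_mono {n : ℕ} {u v : Fin n} (h : (Gst n).Adj u v) (h3 : u.val % 3 = v.val % 3) :
    u ≠ v ∧ u.val < 6 ∧ v.val < 6 := by
  rcases h with h | ⟨_, h⟩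
  · exact absurd h3 h
  · exact h

theorem pair_form {n : ℕ} (hn : 6 ≤ n) {u v : Fin n} (h : (Gst n).Adj u v)
    (h3 : u.val % 3 = v.val % 3) :
    u = w6 hn (v6 ⟨u.val % 3, Nat.mod_lt _ (by norm_num)⟩ (decide (3 ≤ u.val))) ∧
    v = w6 hn (v6 ⟨u.val % 3, Nat.mod_lt _ (by norm_num)⟩ (!decide (3 ≤ u.val))) := by
  obtain ⟨h1, h2, h4⟩ := two_mono h h3
  have h1' : u.val ≠ v.val := fun h => h1 (Fin.ext h)
  constructor <;> apply Fin.ext <;> simp only [w6, v6] <;> by_cases h5 : 3 ≤ u.val <;>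
    simp [h5] <;> omega

theorem copy_arcs (h2 : S_FC2) {n : ℕ} (hn : 6 ≤ n) {O : Fin n → Fin n → Prop}
    (hO : IsOri (Gst n) O) (hc : HasCopy Dv O) :
    ∃ i ∈ idx, ∀ e ∈ PP hn i, O e.1 e.2 := by
  obtain ⟨f, hf, hD⟩ := hc
  have hadj : ∀ i j, Dv i j → (Gst n).Adj (f i) (f j) := fun i j h => hO.1 _ _ (hD i j h)
  let c : Fin 9 → Fin 3 := fun w => ⟨(f w).val % 3, Nat.mod_lt _ (by norm_num)⟩
  have hceq : ∀ i j, c i = c j ↔ (f i).val % 3 = (f j).val % 3 := by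
    intro i j
    simp only [c, Fin.mk.injEq]
  have hyp : ∀ i j k l : Fin 9, Dv i j → Dv k l → c i = c j → c k = c l → c i = c k →
      i = k ∧ j = l := by
    intro i j k l hij hkl e1 e2 e3
    rw [hceq] at e1 e2 e3
    obtain ⟨a1, a2, a3⟩ := two_mono (hadj i j hij) e1
    obtain ⟨b1, b2, b3⟩ := two_mono (hadj k l hkl) e2
    have a1' : (f i).val ≠ (f j).val := fun h => a1 (Fin.ext h)
    have b1' : (f k).val ≠ (f l).val := fun h => b1 (Fin.ext h)
    have : ((f i).val = (f k).val ∧ (f j).val = (f l).val) ∨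
        ((f i).val = (f l).val ∧ (f j).val = (f k).val) := by omega
    rcases this with ⟨e, e'⟩ | ⟨e, e'⟩
    · exact ⟨hf (Fin.ext e), hf (Fin.ext e')⟩
    · exfalso
      have q1 : i = l := hf (Fin.ext e)
      have q2 : j = k := hf (Fin.ext e')
      subst q1; subst q2
      exact dv_asymm _ _ hij hkl
  rcases h2 c hyp with ⟨e1, e2, e3, n1, n2, n3⟩ | ⟨e1, e2, e3, n1, n2, n3⟩
  · obtain ⟨p1, p1'⟩ := pair_form hn (hadj 1 3 (by decide)) ((hceq 1 3).1 e1)
    obtain ⟨p2, p2'⟩ := pair_form hn (hadj 4 5 (by decide)) ((hceq 4 5).1 e2)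
    obtain ⟨p3, p3'⟩ := pair_form hn (hadj 6 8 (by decide)) ((hceq 6 8).1 e3)
    refine ⟨(true, (c 1, c 4, c 6), (decide (3 ≤ (f 1).val), decide (3 ≤ (f 4).val),
      decide (3 ≤ (f 6).val))), ?_, ?_⟩
    · simp only [idx, Finset.mem_filter, Finset.mem_univ, true_and]
      exact ⟨n1, n2, n3⟩
    · intro e he
      obtain ⟨p, hp, h1, h2⟩ := (mem_PP hn _ e).1 he
      rw [← h1, ← h2]
      simp only [P0, Finset.mem_insert, Finset.mem_singleton] at hp
      rcases hp with rfl | rfl | rfl | rfl | rfl | rfl | rfl | rfl | rfl | rfl | rfl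
      · have := hD 5 1 (by decide); rwa [p2', p1] at this
      · have := hD 3 5 (by decide); rwa [p1', p2'] at this
      · have := hD 4 5 (by decide); rwa [p2, p2'] at this
      · have := hD 5 6 (by decide); rwa [p2', p3] at this
      · have := hD 1 3 (by decide); rwa [p1, p1'] at this
      · have := hD 6 1 (by decide); rwa [p3, p1] at this
      · have := hD 6 3 (by decide); rwa [p3, p1'] at this
      · have := hD 6 4 (by decide); rwa [p3, p2] at this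
      · have := hD 8 3 (by decide); rwa [p3', p1'] at this
      · have := hD 8 4 (by decide); rwa [p3', p2] at this
      · have := hD 6 8 (by decide); rwa [p3, p3'] at this
  · obtain ⟨p1, p1'⟩ := pair_form hn (hadj 0 4 (by decide)) ((hceq 0 4).1 e1)
    obtain ⟨p2, p2'⟩ := pair_form hn (hadj 3 5 (by decide)) ((hceq 3 5).1 e2)
    obtain ⟨p3, p3'⟩ := pair_form hn (hadj 6 8 (by decide)) ((hceq 6 8).1 e3)
    refine ⟨(false, (c 0, c 3, c 6), (decide (3 ≤ (f 0).val), decide (3 ≤ (f 3).val),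
      decide (3 ≤ (f 6).val))), ?_, ?_⟩
    · simp only [idx, Finset.mem_filter, Finset.mem_univ, true_and]
      exact ⟨n1, n2, n3⟩
    · intro e he
      obtain ⟨p, hp, h1, h2⟩ := (mem_PP hn _ e).1 he
      rw [← h1, ← h2]
      simp only [P0, Finset.mem_insert, Finset.mem_singleton] at hp
      rcases hp with rfl | rfl | rfl | rfl | rfl | rfl | rfl | rfl | rfl | rfl | rfl
      · have := hD 5 0 (by decide); rwa [p2', p1] at this
      · have := hD 3 5 (by decide); rwa [p2, p2'] at this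
      · have := hD 4 5 (by decide); rwa [p1', p2'] at this
      · have := hD 5 6 (by decide); rwa [p2', p3] at this
      · have := hD 0 4 (by decide); rwa [p1, p1'] at this
      · have := hD 6 0 (by decide); rwa [p3, p1] at this
      · have := hD 6 3 (by decide); rwa [p3, p2] at this
      · have := hD 6 4 (by decide); rwa [p3, p1'] at this
      · have := hD 8 3 (by decide); rwa [p3', p2] at this
      · have := hD 8 4 (by decide); rwa [p3', p1'] at this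
      · have := hD 6 8 (by decide); rwa [p3, p3'] at this

theorem lb (h1 : S_CNT) (h2 : S_FC2) (h3 : S_EG) : S_LB := by
  intro n hn
  have he := h3 n hn
  set E := n ^ 2 / 3 + 3 with hE
  let B : Ix → Set (Fin n → Fin n → Prop) := fun i =>
    {O | IsOri (Gst n) O ∧ ∀ e ∈ PP hn i, O e.1 e.2}
  have hB : ∀ i ∈ idx, (B i).ncard = 2 ^ (E - 11) := by
    intro i hi
    obtain ⟨_, h⟩ := h1 (Fin n) (Gst n) (PP hn i) (PP_adj hn hi) (PP_asymm hn hi)
    rw [he, PP_card hn hi] at h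
    rw [← h]
    rfl
  have hE11 : 11 ≤ E := by
    have : 12 ≤ n ^ 2 / 3 := by
      rw [Nat.le_div_iff_mul_le (by norm_num)]
      nlinarith
    omega
  let A : Set (Fin n → Fin n → Prop) := {O | IsOri (Gst n) O ∧ ¬ HasCopy Dv O}
  let T : Set (Fin n → Fin n → Prop) := {O | IsOri (Gst n) O ∧ ∀ e ∈ (∅ : Finset (Fin n × Fin n)),
    O e.1 e.2}
  have hT : T.ncard = 2 ^ E := by
    obtain ⟨_, h⟩ := h1 (Fin n) (Gst n) ∅ (by simp) (by simp)
    rw [he, Finset.card_empty, Nat.sub_zero] at h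
    rw [← h]
    rfl
  have hcov : T ⊆ A ∪ ⋃ i ∈ idx, B i := by
    intro O hO
    by_cases hc : HasCopy Dv O
    · right
      obtain ⟨i, hi, h⟩ := copy_arcs h2 hn hO.1 hc
      simp only [Set.mem_iUnion]
      exact ⟨i, hi, hO.1, h⟩
    · left
      exact ⟨hO.1, hc⟩
  have hfin : ∀ S : Set (Fin n → Fin n → Prop), S.Finite := fun S => Set.toFinite S
  have key : 2 ^ E ≤ A.ncard + 96 * 2 ^ (E - 11) := by
    calc 2 ^ E = T.ncard := hT.symm
      _ ≤ (A ∪ ⋃ i ∈ idx, B i).ncard := Set.ncard_le_ncard hcov (hfin _)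
      _ ≤ A.ncard + (⋃ i ∈ idx, B i).ncard := Set.ncard_union_le _ _
      _ ≤ A.ncard + ∑ i ∈ idx, (B i).ncard := by
          gcongr
          exact Finset.set_ncard_biUnion_le _ _
      _ = A.ncard + 96 * 2 ^ (E - 11) := by
          rw [Finset.sum_congr rfl hB, Finset.sum_const, idx_card, smul_eq_mul]
  have hA : Dcount (Gst n) Dv = A.ncard := rfl
  rw [hA]
  obtain ⟨m, hm⟩ : ∃ m, E = m + 11 := ⟨E - 11, by omega⟩
  have h5 : n ^ 2 / 3 + 2 = m + 10 := by omega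
  rw [h5]
  rw [hm, Nat.add_sub_cancel, pow_add] at key
  rw [pow_add]
  have : 0 < 2 ^ m := by positivity
  norm_num at key ⊢
  omega

end Pool.Agent.N556.OG
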